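import Pool.Agent.H71.Ses.G2

/-!
# A smooth projective surface with global Seshadri constant zero

Over every algebraically closed field `k` of characteristic `5` there are a smooth projective
surface `X` and a closed point `x₀` of `X` with `ε(X, x₀) = 0`, hence `ε(X) = 0`.

The surface is `X = E × C` with `E : y² = x³ - 2 x` and `C` the smooth plane quartic
`a⁴ + b⁴ = 2`.  The curve `C` has two morphisms `u = (-(b² + 2 a²), …)` and `z` to `E` which are
independent, and the curves of `X` used are the images of curves `D` which map to `C × C` by a
correspondence built from the `5 ^ n`-power Frobenius morphism; they have contact of order `5 ^ n`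
with the two fibres through `x₀`, while their intersection number with a suitable ample line
bundle is at most `5 ^ n` times an arbitrarily small number.
-/

namespace Pool.Agent.Results.MP_ae1e08_ag.SeshadriZero

open Pool.Agent.H71.Ses

/-- Over every algebraically closed field of characteristic `5` there is a smooth projective surface
`X` with `ε(X) = 0`; moreover `ε(X, P) = 0` for a fixed closed point `P` of `X`. -/
theorem result (k : Type) [Field k] [IsAlgClosed k] [CharP k 5] :
    ∃ (K : Type) (_ : Field K) (_ : Algebra k K) (X : ProjVar k K), X.IsSmoothSurface ∧
      (∃ P : X.Point, P.IsClosed ∧ X.seshadriAt P = 0) ∧ X.globalSeshadri = 0 :=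
  main_theorem k

end Pool.Agent.Results.MP_ae1e08_ag.SeshadriZero
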